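import Pool.Agent.W2helper84.TN.Stm

/-!
# Piece COM (helper84): commuting semisimple matrices with trace zero
-/

set_option autoImplicit false

namespace Pool.Agent.W2helper15.TN

open Pool.Agent.W2helper84.TN Module

attribute [local instance 100] LieRing.ofAssociativeRing

variable (K : Type*) [Field K]

/-- a basis of common eigenvectors -/
theorem com_aux [IsAlgClosed K] (N : Submodule K (Mat K)) (hc : ∀ A ∈ N, ∀ B ∈ N, A * B = B * A)
    (hs : ∀ A ∈ N, Module.End.IsSemisimple (Matrix.toLin' A)) :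
    ∃ (b : Basis (Fin 6) K (Fin 6 → K)) (χ : Fin 6 → N → K), ∀ (i : Fin 6) (A : N),
      Matrix.toLin' A.1 (b i) = χ i A • b i := by
  classical
  obtain ⟨f, hf⟩ : ∃ f : N → Module.End K (Fin 6 → K), f = fun A => Matrix.toLin' A.1 := ⟨_, rfl⟩
  have hcomm : Pairwise fun A B : N => Commute (f A) (f B) := by
    intro A B _
    rw [hf]
    show Matrix.toLin' A.1 * Matrix.toLin' B.1 = Matrix.toLin' B.1 * Matrix.toLin' A.1
    have h1 := Matrix.toLin'_mul A.1 B.1
    have h2 := Matrix.toLin'_mul B.1 A.1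
    rw [Module.End.mul_eq_comp, Module.End.mul_eq_comp, ← h1, ← h2, hc A.1 A.2 B.1 B.2]
  have htop := Module.End.iSup_iInf_maxGenEigenspace_eq_top_of_iSup_maxGenEigenspace_eq_top_of_commute
    f hcomm (fun A => Module.End.iSup_maxGenEigenspace_eq_top (f A))
  obtain ⟨S, hS⟩ : ∃ S : Set (Fin 6 → K), S = {v | ∃ χ : N → K, ∀ A : N,
    Matrix.toLin' A.1 v = χ A • v} := ⟨_, rfl⟩
  have hmem : ∀ v, v ∈ S → ∃ χ : N → K, ∀ A : N, Matrix.toLin' A.1 v = χ A • v := by
    intro v hv
    rw [hS] at hv
    exact hv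
  have hspan : ⊤ ≤ Submodule.span K S := by
    rw [← htop]
    refine iSup_le fun χ v hv => Submodule.subset_span ?_
    rw [hS]
    refine ⟨χ, fun A => ?_⟩
    have h1 := (Submodule.mem_iInf _).1 hv A
    have h2 : (f A).IsFinitelySemisimple := by
      rw [hf]
      exact (hs A.1 A.2).isFinitelySemisimple
    rw [h2.maxGenEigenspace_eq_eigenspace, Module.End.mem_eigenspace_iff] at h1
    rw [hf] at h1
    exact h1
  let B := Basis.ofSpan hspan
  have hfin := FiniteDimensional.fintypeBasisIndex B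
  have hcard := finrank_eq_card_basis B
  rw [finrank_fin_fun] at hcard
  let e := Fintype.equivFinOfCardEq hcard.symm
  have hb : ∀ i, ∃ χ : N → K, ∀ A : N, Matrix.toLin' A.1 ((B.reindex e) i) =
      χ A • (B.reindex e) i := by
    intro i
    have h3 : B.reindex e i ∈ S := by
      rw [Basis.reindex_apply]
      exact Basis.ofSpan_subset hspan ⟨e.symm i, rfl⟩
    exact hmem _ h3
  choose χ hχ using hb
  exact ⟨B.reindex e, χ, hχ⟩

/-- **COM** -/
theorem com [CharP K 2] : StmCOM K := by
  classical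
  intro hA N hc hs htr
  obtain ⟨b, χ, hχ⟩ := com_aux K N hc hs
  let Ψ : N →ₗ[K] (Fin 6 → K) :=
    { toFun := fun A i => b.repr (Matrix.toLin' A.1 (b i)) i
      map_add' := fun A B => by
        funext i
        simp
      map_smul' := fun c A => by
        funext i
        simp }
  have hΨ : ∀ A i, Ψ A i = χ i A := by
    intro A i
    show b.repr (Matrix.toLin' A.1 (b i)) i = _
    rw [hχ]
    simp
  have hinj : Function.Injective Ψ := by
    rw [injective_iff_map_eq_zero]
    intro A h
    have h1 : Matrix.toLin' A.1 = 0 := by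
      apply b.ext
      intro i
      rw [hχ, ← hΨ, h]
      simp
    exact Subtype.ext ((Matrix.toLin' (R := K)).map_eq_zero_iff.1 h1)
  obtain ⟨σ, hσ⟩ : ∃ σ : (Fin 6 → K) →ₗ[K] K, σ = ∑ i, LinearMap.proj i := ⟨_, rfl⟩
  have hσa : ∀ x : Fin 6 → K, σ x = ∑ i, x i := by
    intro x
    rw [hσ, LinearMap.sum_apply]
    rfl
  have hker : LinearMap.range Ψ ≤ LinearMap.ker σ := by
    rintro _ ⟨A, rfl⟩
    rw [LinearMap.mem_ker, hσa]
    have h1 := LinearMap.trace_eq_matrix_trace K b (Matrix.toLin' A.1)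
    have h2 := LinearMap.trace_eq_matrix_trace K (Pi.basisFun K (Fin 6)) (Matrix.toLin' A.1)
    rw [LinearMap.toMatrix_eq_toMatrix', LinearMap.toMatrix'_toLin', htr A.1 A.2] at h2
    rw [h1] at h2
    rw [← h2]
    rw [Matrix.trace]
    refine Finset.sum_congr rfl fun i _ => ?_
    rw [Matrix.diag_apply, LinearMap.toMatrix_apply]
    rfl
  have hsurj : LinearMap.range σ = ⊤ := by
    rw [LinearMap.range_eq_top]
    intro c
    refine ⟨Pi.single 0 c, ?_⟩
    rw [hσa]
    simp
  have h3 := σ.finrank_range_add_finrank_ker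
  rw [hsurj, finrank_top, finrank_self, finrank_fin_fun] at h3
  have h4 := Submodule.finrank_mono hker
  rw [LinearMap.finrank_range_of_inj hinj] at h4
  omega

end Pool.Agent.W2helper15.TN
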